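import Pool.Agent.P.MP_d4a912_an.Gen.Main

set_option autoImplicit false

namespace Pool.Agent.Results.MP_d4a912_an.Classification

open Pool.Agent.P.MP_d4a912_an.Gen

universe u

/-- A real Banach space has an equivalent WCR norm whose bidual norm is not weak-star Cauchy
rotund if and only if it is not reflexive and has a separable dual or some equivalent WCR norm. -/
theorem result (X : Type u) [NormedAddCommGroup X] [NormedSpace ℝ X] [CompleteSpace X] :
    (∃ (Y : Type u) (_ : NormedAddCommGroup Y) (_ : NormedSpace ℝ Y),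
        Nonempty (X ≃L[ℝ] Y) ∧ IsWCR Y ∧ ¬ BidualIsWStarCR Y) ↔
      (¬ Function.Surjective (NormedSpace.inclusionInDoubleDual ℝ X) ∧
        (TopologicalSpace.SeparableSpace (X →L[ℝ] ℝ) ∨
          ∃ (Y : Type u) (_ : NormedAddCommGroup Y) (_ : NormedSpace ℝ Y),
            Nonempty (X ≃L[ℝ] Y) ∧ IsWCR Y)) :=
  main' X

end Pool.Agent.Results.MP_d4a912_an.Classification
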